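import Mathlib

namespace Pool.Agent.Results.MP_bd2bbd_co.Cex

open SimpleGraph

/-- a path system on `Fin n` (only the values at `u ≠ v` matter) -/
structure PathSystem (n : ℕ) where
  P : ∀ u v : Fin n, (⊤ : SimpleGraph (Fin n)).Walk u v
  isPath : ∀ u v, u ≠ v → (P u v).IsPath
  rev : ∀ u v, u ≠ v → P v u = (P u v).reverse

variable {n : ℕ}

def Consistent (S : PathSystem n) : Prop :=
  ∀ u v a, u ≠ v → a ∈ (S.P u v).support → a ≠ u → a ≠ v → S.P u v = (S.P u a).append (S.P a v)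

def DiamTwo (S : PathSystem n) : Prop :=
  (∀ u v, u ≠ v → (S.P u v).length ≤ 2) ∧ ∃ u v, u ≠ v ∧ (S.P u v).length = 2

def Mono (S : PathSystem n) : Prop :=
  ∀ i j k, i ≠ j → i ≠ k → (S.P i j).length = 2 → (S.P i k).length = 2 → j ≤ k →
    (S.P i j).getVert 1 ≤ (S.P i k).getVert 1

def StrictlyMetric (S : PathSystem n) : Prop :=
  ∃ w : Sym2 (Fin n) → ℝ, (∀ a b, a ≠ b → 0 < w s(a, b)) ∧
    ∀ u v, u ≠ v → ∀ q : (⊤ : SimpleGraph (Fin n)).Walk u v, q.IsPath → q ≠ S.P u v →
      ((S.P u v).edges.map w).sum < (q.edges.map w).sum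

def mid (u v : Fin 7) : Fin 7 :=
  ![![0, 0, 0, 0, 0, 2, 3],
    ![1, 1, 1, 1, 0, 1, 5],
    ![2, 2, 2, 1, 6, 2, 2],
    ![3, 3, 1, 3, 3, 4, 3],
    ![4, 0, 6, 4, 4, 4, 4],
    ![2, 5, 5, 4, 5, 5, 5],
    ![3, 5, 6, 6, 6, 6, 6]] u v

def P0 (u v : Fin 7) : (⊤ : SimpleGraph (Fin 7)).Walk u v :=
  if h : u ≠ mid u v ∧ mid u v ≠ v then .cons (v := mid u v) h.1 (.cons h.2 .nil)
  else if h' : u = v then Walk.nil.copy rfl h' else .cons h' .nil

def S0 : PathSystem 7 := ⟨P0, by simp only [Walk.isPath_def]; decide +kernel, by decide +kernel⟩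

theorem result : ¬ ∀ (n : ℕ) (S : PathSystem n), Consistent S → DiamTwo S → Mono S →
    StrictlyMetric S := by
  intro h
  obtain ⟨w, -, hw⟩ := h 7 S0 (by unfold Consistent; decide +kernel)
    (by unfold DiamTwo; decide +kernel) (by unfold Mono; decide +kernel)
  have key : ∀ u v z c : Fin 7, u ≠ v → (S0.P u v).edges = [s(u, z), s(z, v)] → u ≠ c → c ≠ v →
      c ≠ z → w s(u, z) + w s(v, z) < w s(u, c) + w s(v, c) := by
    intro u v z c h1 h2 h3 h4 h5
    have := hw u v h1 (.cons (v := c) h3 (.cons h4 .nil)) (by simp [h1, h3, h4]) (fun e => by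
      have e2 := congrArg Walk.edges e
      rw [h2] at e2
      simp [h5, h3.symm] at e2)
    rw [h2] at this
    simpa [Sym2.eq_swap (a := v)] using this
  have sw : ∀ a b : Fin 7, w s(a, b) = w s(min a b, max a b) := fun a b => by
    rcases le_total a b with h | h
    · rw [min_eq_left h, max_eq_right h]
    · rw [min_eq_right h, max_eq_left h, Sym2.eq_swap]
  have a0 := key 2 3 1 0 (by decide) (by decide) (by decide) (by decide) (by decide)
  have a1 := key 1 4 0 3 (by decide) (by decide) (by decide) (by decide) (by decide)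
  have a2 := key 2 4 6 5 (by decide) (by decide) (by decide) (by decide) (by decide)
  have a3 := key 0 5 2 1 (by decide) (by decide) (by decide) (by decide) (by decide)
  have a4 := key 3 5 4 6 (by decide) (by decide) (by decide) (by decide) (by decide)
  have a5 := key 0 6 3 4 (by decide) (by decide) (by decide) (by decide) (by decide)
  have a6 := key 1 6 5 2 (by decide) (by decide) (by decide) (by decide) (by decide)
  simp only [sw 2 1, sw 3 1, sw 1 0, sw 4 0, sw 2 0, sw 3 0, sw 5 2, sw 5 4, sw 6 3, sw 6 5,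
    sw 4 3, sw 5 1, sw 6 2, sw 6 4] at a0 a1 a2 a3 a4 a5 a6
  simp only [show ∀ a b : Fin 7, min a b = if a ≤ b then a else b from min_def,
    show ∀ a b : Fin 7, max a b = if a ≤ b then b else a from max_def] at a0 a1 a2 a3 a4 a5 a6
  simp at a0 a1 a2 a3 a4 a5 a6
  linarith

end Pool.Agent.Results.MP_bd2bbd_co.Cex
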